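import Pool.Agent.H732Z.GKKProof

namespace Pool.Agent.Results.MP_25f4f2_al.ATauUnstable

open Pool.Agent.H732Z.GKK

/-- There is a strict GKK tau-matrix of order 5 with an eigenvalue of negative real part. -/
theorem result : ∃ B : Matrix (Fin 5) (Fin 5) ℂ,
    IsStrictGKK B ∧ IsTau B ∧ ∃ μ ∈ spectrum ℂ B, μ.re < 0 :=
  Pool.Agent.H732Z.GKK.main

end Pool.Agent.Results.MP_25f4f2_al.ATauUnstable
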